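import Pool.Agent.MP_09973c_nt.H71.NG

/-!
Fixed entry points are impossible.
-/

set_option autoImplicit false

namespace Pool.Agent.MP_09973c_nt.H71

open Polynomial Finset Filter Topology Classical Pool.Agent.MP_09973c_nt.H58

theorem poly_le_two_pow (K C : ℕ) : ∀ᶠ m : ℕ in atTop, K * m ^ C ≤ 2 ^ m := by
  have h := (tendsto_pow_const_div_const_pow_of_one_lt C (by norm_num : (1 : ℝ) < 2)).const_mul
    (K : ℝ)
  rw [mul_zero] at h
  filter_upwards [h.eventually (gt_mem_nhds one_pos)] with m hm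
  rw [← mul_div_assoc, div_lt_one (by positivity)] at hm
  exact_mod_cast hm.le

theorem polylog (c₁ c₂ C C' : ℕ) : ∃ N, ∀ n, N ≤ n →
    C' * ((C * (c₁ + c₂ * (Nat.log 2 (n + 2) + 1) + 1)) ^ C + 1) ≤ n := by
  obtain ⟨M, hM⟩ := eventually_atTop.1
    (poly_le_two_pow (C' * ((C * (c₁ + 2 * c₂ + 1)) ^ C + 1) + 2) C)
  refine ⟨2 ^ (M + 1), fun n hn => ?_⟩
  have h1 : M + 1 ≤ Nat.log 2 (n + 2) := Nat.le_log_of_pow_le (by norm_num) (by omega)
  have h2 : 2 ^ Nat.log 2 (n + 2) ≤ n + 2 := Nat.pow_log_le_self 2 (by omega)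
  have h3 := hM _ (by omega : M ≤ Nat.log 2 (n + 2))
  set m := Nat.log 2 (n + 2)
  have h4 : 1 ≤ m ^ C := Nat.one_le_pow _ _ (by omega)
  have h5 : (C * (c₁ + c₂ * (m + 1) + 1)) ^ C ≤ (C * (c₁ + 2 * c₂ + 1)) ^ C * m ^ C := by
    rw [← mul_pow]
    refine Nat.pow_le_pow_left ?_ _
    rw [mul_assoc]
    refine Nat.mul_le_mul_left _ ?_
    obtain ⟨r, hr⟩ : ∃ r, m = r + 1 := ⟨m - 1, by omega⟩
    rw [hr]; nlinarith [Nat.zero_le (c₁ * r), Nat.zero_le (c₂ * r)]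
  have h6 : C' * ((C * (c₁ + c₂ * (m + 1) + 1)) ^ C + 1) ≤
      C' * (((C * (c₁ + 2 * c₂ + 1)) ^ C + 1) * m ^ C) :=
    Nat.mul_le_mul_left _ (by rw [add_mul]; omega)
  rw [add_mul, mul_assoc] at h3
  omega

theorem finite_root {r : ℕ} (hr : 0 < r) {T : Set Qb} (hT : T.Finite) :
    {y : Qb | y ^ r ∈ T}.Finite := by
  refine (hT.biUnion fun z _ => (nthRoots r z).toFinset.finite_toSet).subset fun y hy => ?_
  simp only [Set.mem_iUnion]
  exact ⟨_, hy, by simp [mem_nthRoots hr]⟩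

theorem finite_reach {p q : ℕ} (hp : 0 < p) (c x : Qb) (J : ℕ) : ∃ S : Set Qb, S.Finite ∧
    ∀ t : ℕ → Qb, t 0 ^ p = x ^ p → ∀ j ≤ J, Bwd p q c j t → t j ∈ S := by
  induction J with
  | zero =>
    refine ⟨_, finite_root hp (Set.finite_singleton (x ^ p)), fun t h j hj _ => ?_⟩
    rwa [Nat.le_zero.1 hj]
  | succ J ih =>
    obtain ⟨S, hS, h⟩ := ih
    refine ⟨_, hS.union (finite_root hp (hS.image fun z => z ^ q - c)), fun t h0 j hj ht => ?_⟩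
    rcases hj.lt_or_eq with h1 | rfl
    · exact Or.inl (h t h0 j (by omega) ht)
    · exact Or.inr ⟨t J, h t h0 J le_rfl (bwd_mono ht (by omega)),
        (eq_sub_of_add_eq (ht J (by omega))).symm⟩

theorem HL_chain {p q : ℕ} {a b : Qb} (D : Dat p q a) (D' : Dat p q b) {k N : ℕ}
    (h : ∀ l, k < l → l < N → HL D D' (l + 1) ≤ HL D D' l) : HL D D' N ≤ HL D D' (k + 1) := by
  induction N with
  | zero => exact HL_mono D D' (Nat.zero_le _)
  | succ N ih =>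
    rcases le_or_gt N k with h1 | h1
    · exact HL_mono D D' (by omega)
    · exact (h N h1 (by omega)).trans (ih fun l h2 h3 => h l h2 (by omega))

theorem t0_pow {p q : ℕ} {c : Qb} (D : Dat p q c) : D.t 0 ^ p = D.u 0 ^ p := by
  rw [D.ht0, mul_pow, D.hξ, one_mul]

theorem lp_le_norm {F : Type} [NormedField F] (x : F) : lp x ≤ ‖x‖ := by
  have := Real.log_le_sub_one_of_pos (show 0 < max 1 ‖x‖ by positivity)
  rcases le_total 1 ‖x‖ with h | h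
  · rw [max_eq_right h] at this; rw [lp_eq_log h]; linarith
  · rw [H58.lp, max_eq_left h, Real.log_one]; exact norm_nonneg _

theorem ratio_step {p q : ℕ} (hp : 0 < p) {a b ζ ζ' : Qb} {U : Ultrafilter ℕ} {X Y X' Y' : ℕ → Qb}
    (h : ∀ᶠ ν in (U : Filter ℕ), X ν ^ p + a = Y ν ^ q ∧ X' ν ^ p + b = Y' ν ^ q ∧
      X' ν = ζ * X ν ∧ Y' ν = ζ' * Y ν) (hX : Tendsto (fun ν => ‖X ν‖) U atTop) :
    ζ ^ p = ζ' ^ q ∧ ζ' ^ q * a = b := by
  have key : ∀ᶠ ν in (U : Filter ℕ), (ζ ^ p - ζ' ^ q) * X ν ^ p = ζ' ^ q * a - b := by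
    filter_upwards [h] with ν ⟨h1, h2, h3, h4⟩
    rw [h3, h4, mul_pow, mul_pow, ← h1] at h2
    linear_combination h2
  have h0 : ζ ^ p = ζ' ^ q := by
    by_contra hne
    have h1 : 0 < ‖ζ ^ p - ζ' ^ q‖ := norm_pos_iff.2 (sub_ne_zero.2 hne)
    have h2 := ((tendsto_pow_atTop hp.ne').comp hX).const_mul_atTop h1
    obtain ⟨ν, h3, h4⟩ := (key.and (h2.eventually_gt_atTop ‖ζ' ^ q * a - b‖)).exists
    rw [← h3, norm_mul, norm_pow] at h4
    exact lt_irrefl _ h4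
  obtain ⟨ν, h3⟩ := key.exists
  rw [h0, sub_self, zero_mul] at h3
  exact ⟨h0, sub_eq_zero.1 h3.symm⟩

theorem HC_eq {p q : ℕ} {a b x x' : Qb} (D : Dat p q a) (D' : Dat p q b) (h : D.u 0 = x)
    (h' : D'.u 0 = x') : HC D D' = GK p q a b ⊓ Fix ℚ {x, x'} := by rw [HC, h, h']

theorem cf1 (hD : DegStmt) (hD2 : Deg2Stmt) (hN : NGStmt) (hDen : DenStmt) (hR : RothStmt)
    (hW : W2Stmt) : CF1Stmt := by
  intro p q a b hp hpq hcop ha hb hab
  have hp0 : 0 < p := by omega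
  have hq0 : 0 < q := by omega
  have hpq0 : 0 < p * q := by positivity
  have hθ := one_lt_theta hp0 hpq
  obtain ⟨d₀, -, Ca, hCa, hS⟩ := exists_Sz_finset {a, b}
  have hSa := hS a (by simp)
  have hSb := hS b (by simp)
  have hΛ := log_one_add_nonneg (zero_le_one.trans hCa)
  obtain ⟨AW, CW, hAW, hCW, hW⟩ := hW p q Ca hp hpq hcop
  obtain ⟨AD, hD⟩ := hD p q a b Ca hp hpq hcop ha hb hab
  obtain ⟨C₂, hD2⟩ := hD2 p q a b hp hpq hcop ha hb hab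
  obtain ⟨AN, hN⟩ := hN p q a b hp hpq hcop ha hb hab
  refine ⟨max (max AD AN) (Real.log (1 + Ca) + 1), fun U D D' o o' j₁ x x' hs hx => ?_⟩
  obtain ⟨CD, hD⟩ := hD j₁ (o + o')
  obtain ⟨CN, hN⟩ := hN j₁ (o + o')
  obtain ⟨S₁, f₁, hS₁⟩ := finite_reach (q := q) hp0 a x (j₁ + 2 * (o + o'))
  obtain ⟨S₂, f₂, hS₂⟩ := finite_reach (q := q) hp0 b x' (j₁ + 2 * (o + o'))
  have hfin : (({a, b} ∪ {z : Qb | z ^ (p * q) = 1}) ∪ ({x, x'} ∪ (S₁ ∪ S₂))).Finite :=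
    ((Set.toFinite _).union (finite_roots_one hpq0)).union ((Set.toFinite _).union (f₁.union f₂))
  set S := hfin.toFinset with hSdef
  have hI := index_Fix_ne_zero S.finite_toSet
  set I := (Fix ℚ (S : Set Qb)).index with hIdef
  set I₀ := (GK p q a b ⊓ Fix ℚ {x, x'}).index with hI₀
  obtain ⟨r, hr⟩ := pow_unbounded_of_one_lt (max (q : ℝ) C₂) hθ
  obtain ⟨N₁, hN₁⟩ := polylog I₀ CD CN (CN + (r + 1 + j₁ + (o + o')))
  set k₀ := (CN * (I * p ^ 4 + 1)) ^ CN with hk₀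
  have hgood : ∀ᶠ ν in (U : Filter ℕ), (HL (D ν) (D' ν) 0).index ≤ I * p ^ 4 ∧
      Fix ℚ (S : Set Qb) ≤ HL (D ν) (D' ν) (k₀ + 1) := by
    filter_upwards [hs.top, hx, hs.long (N₁ + CN * (k₀ + 1))] with ν ⟨htop, hn⟩ ⟨h1, h2, hA⟩ hl
    have hfix : ∀ L k, (HL (D ν) (D' ν) 0).index ≤ 2 ^ L → (CN * (L + 1)) ^ CN ≤ k →
        CN * (k + 1) ≤ (D ν).n → Fix ℚ (S : Set Qb) ≤ HL (D ν) (D' ν) (k + 1) := by
      intro L k a1 a2 a3
      refine le_trans ?_ (HL_chain (N := (D ν).n + 1 - (j₁ + (o + o'))) _ _ fun l b1 b2 =>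
        hN (D ν) (D' ν) L k htop (by omega) (by omega)
          ((le_max_right _ _).trans ((le_max_left _ _).trans hA)) a1 a2 a3 l b1 (by omega))
      intro g hg
      rw [hSdef, Set.Finite.coe_toFinset, Fix_union] at hg
      have hg2 := mem_Fix.1 hg.2
      refine (mem_HL _ _).2 ⟨hg.1, hg2 _ (by simp [h1]), hg2 _ (by simp [h2]),
        fun i b1 b2 => hg2 _ (Or.inr (Or.inl ?_)), fun i b1 b2 => hg2 _ (Or.inr (Or.inr ?_))⟩
      · exact hS₁ (D ν).t (h1 ▸ t0_pow _) ((D ν).n - i) (by omega)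
          (bwd_mono (D ν).ht (Nat.sub_le _ _))
      · exact hS₂ (D' ν).t (h2 ▸ t0_pow _) ((D' ν).n - i) (by omega)
          (bwd_mono (D' ν).ht (Nat.sub_le _ _))
    have hk := hN₁ (D ν).n (by omega)
    set L := I₀ + CD * (Nat.log 2 ((D ν).n + 2) + 1) with hL
    set k := (CN * (L + 1)) ^ CN with hkdef
    have hk1 : CN * (k + 1) + (r * (k + 1) + (k + 1) + j₁ + (o + o')) ≤ (D ν).n := by
      refine le_trans ?_ hk
      nlinarith [Nat.zero_le (j₁ * k), Nat.zero_le ((o + o') * k)]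
    have a1 : (HL (D ν) (D' ν) 0).index ≤ 2 ^ L := by
      refine (hD Qb goodF_Qb (RingHom.id Qb) liP_id hSa.norm_le hSb.norm_le (D ν) (D' ν) htop
        (by omega) (by omega) (by omega)
        ((le_max_left _ _).trans ((le_max_left _ _).trans hA))).trans ?_
      rw [HC_eq _ _ h1 h2, hL, pow_add, mul_comm CD, pow_mul]
      exact Nat.mul_le_mul Nat.lt_two_pow_self.le
        (Nat.pow_le_pow_left (Nat.lt_pow_succ_log_self (by norm_num) _).le _)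
    have a2 := hfix L k a1 le_rfl (by omega)
    have a3 : C₂ * (q : ℝ) ^ k ≤ lp ((D ν).lev k) := by
      have b1 := grow_one hp0 hpq hSa.norm_le (D ν) ((le_max_right _ _).trans hA) (i := k)
        (by omega)
      have b2 : ((q : ℝ) / p) ^ (r * (k + 1)) ≤ ((q : ℝ) / p) ^ ((D ν).n - k - j₁) :=
        pow_le_pow_right₀ hθ.le (by omega)
      have b3 : C₂ * (q : ℝ) ^ k ≤ ((q : ℝ) / p) ^ (r * (k + 1)) := by
        rw [pow_mul, pow_succ']
        exact mul_le_mul ((le_max_right _ _).trans hr.le)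
          (pow_le_pow_left₀ (by positivity) ((le_max_left _ _).trans hr.le) _) (by positivity)
          (by positivity)
      linarith
    have a4 : (HL (D ν) (D' ν) 0).index ≤ I * p ^ 4 :=
      (hD2 (D ν) (D' ν) k htop (by omega) (by omega) a3).trans (Nat.mul_le_mul_right _
        (Nat.le_of_dvd (Nat.pos_of_ne_zero hI) (Subgroup.index_dvd_of_le a2)))
    exact ⟨a4, hfix (I * p ^ 4) k₀ (a4.trans Nat.lt_two_pow_self.le) le_rfl (by omega)⟩
  obtain ⟨d, hd, hDa⟩ := hDen p q a (I * p ^ 4) hp hpq hcop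
  obtain ⟨d', hd', hDb⟩ := hDen p q b (I * p ^ 4) hp hpq hcop
  have htend : ∀ k, Tendsto (fun ν => ‖(D ν).lev k‖) U atTop := by
    intro k
    refine tendsto_atTop.2 fun B => ?_
    obtain ⟨B', hB'⟩ := exists_nat_ge B
    filter_upwards [hx, hs.long (k + j₁ + B' * p)] with ν ⟨_, _, hA⟩ hl
    have b1 := grow_one hp0 hpq hSa.norm_le (D ν) ((le_max_right _ _).trans hA) (i := k) (by omega)
    have b2 := theta_ge hp0 hpq ((D ν).n - k - j₁)
    have b3 : (B' : ℝ) ≤ (((D ν).n - k - j₁ : ℕ) : ℝ) / p := by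
      rw [le_div_iff₀ (by exact_mod_cast hp0)]
      exact_mod_cast (by omega : B' * p ≤ (D ν).n - k - j₁)
    linarith [lp_le_norm ((D ν).lev k)]
  have hroth : ∀ k, k₀ + 1 ≤ k → ∃ ζ : Qb, ζ ^ q ^ (k + 1) = 1 ∧
      ∀ᶠ ν in (U : Filter ℕ), (D' ν).lev k = ζ * (D ν).lev k := by
    intro k hk
    refine hR S (d * d') (q ^ (k + 1)) (CW + Real.exp (AW + 2 * Real.log (1 + Ca))) U _ _
      (by positivity) (by positivity) ?_ (htend k)
    filter_upwards [hgood, hs.top, hs.long k, hs.symm.long k] with ν ⟨a1, a2⟩ ⟨htop, _⟩ l1 l2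
    have hH := HL_index (D ν) (D' ν) hpq0 0
    refine ⟨fun g hg => ?_, ?_, ?_, fun g => ?_⟩
    · have := (mem_HL _ _).1 (a2 hg)
      exact ⟨this.2.2.2.1 k hk l1, this.2.2.2.2 k hk l2⟩
    · have := hDa (D ν) _ hH a1 (fun g hg j hj => by
        rw [← (D ν).lev_sub hj]
        exact ((mem_HL _ _).1 hg).2.2.2.1 _ (Nat.zero_le _) (Nat.sub_le _ _)) _
        (Nat.sub_le (D ν).n k)
      rw [Nat.cast_mul, mul_comm (d : Qb), mul_assoc]
      exact (isIntegral_natCast d').mul this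
    · have := hDb (D' ν) _ hH a1 (fun g hg j hj => by
        rw [← (D' ν).lev_sub hj]
        exact ((mem_HL _ _).1 hg).2.2.2.2 _ (Nat.zero_le _) (Nat.sub_le _ _)) _
        (Nat.sub_le (D' ν).n k)
      rw [Nat.cast_mul, mul_assoc]
      exact (isIntegral_natCast d).mul this
    have c1 := ((D ν).fwd_lev l1).map (g : Qb →+* Qb)
    have c2 := ((D' ν).fwd_lev l2).map (g : Qb →+* Qb)
    have c3 : g ((D' ν).lev 0) ^ q = g ((D ν).lev 0) ^ q := by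
      rw [← map_pow, ← map_pow]; exact congrArg g htop
    have c4 := Real.exp_pos (AW + 2 * Real.log (1 + Ca))
    rcases le_total AW (lp (g ((D ν).lev k))) with h | h
    · obtain ⟨ζ, z1, -, z2⟩ := hW Qb goodF_Qb _ _ k _ _ (hSa.2 g) (hSb.2 g) c1 c2 c3 h
      have n1 := one_le_norm (x := g ((D ν).lev k)) (by linarith)
      refine Or.inr ⟨ζ k, z1 k le_rfl, le_trans ?_ ((z2 k le_rfl).trans (by linarith)), n1⟩
      exact mul_le_mul_of_nonneg_left (pow_le_pow_right₀ n1 (by omega)) (norm_nonneg _)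
    · have c5 := match_fwd hpq (hSa.2 g) (hSb.2 g) c1 c2 le_rfl (by
        simp only [RingHom.coe_coe, lp_of_pow_eq hq0 c3, sub_self, abs_zero]
        linarith) k le_rfl
      simp only [RingHom.coe_coe] at c5
      refine Or.inl ⟨(norm_le_exp_lp _).trans ?_, (norm_le_exp_lp _).trans ?_⟩
      · exact (Real.exp_le_exp.2 (by linarith)).trans (le_add_of_nonneg_left (by linarith))
      · exact (Real.exp_le_exp.2 (by linarith [(abs_le.1 c5).1])).trans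
          (le_add_of_nonneg_left (by linarith))
  obtain ⟨ζ₁, -, e₁⟩ := hroth (k₀ + 1) le_rfl
  obtain ⟨ζ₂, z₂, e₂⟩ := hroth (k₀ + 2) (by omega)
  obtain ⟨ζ₃, -, e₃⟩ := hroth (k₀ + 3) (by omega)
  have hstep : ∀ (k : ℕ) (ζ ζ' : Qb), (∀ᶠ ν in (U : Filter ℕ), (D' ν).lev k = ζ * (D ν).lev k) →
      (∀ᶠ ν in (U : Filter ℕ), (D' ν).lev (k + 1) = ζ' * (D ν).lev (k + 1)) →
      ζ ^ p = ζ' ^ q ∧ ζ' ^ q * a = b := by
    intro k ζ ζ' h1 h2
    refine ratio_step (Y := fun ν => (D ν).lev (k + 1)) (X' := fun ν => (D' ν).lev k)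
      (Y' := fun ν => (D' ν).lev (k + 1)) hp0 ?_ (htend k)
    filter_upwards [h1, h2, hs.long (k + 1), hs.symm.long (k + 1)] with ν b1 b2 l1 l2
    exact ⟨(D ν).fwd_lev l1 k (by omega), (D' ν).fwd_lev l2 k (by omega), b1, b2⟩
  obtain ⟨-, s1⟩ := hstep _ _ _ e₁ e₂
  obtain ⟨s2, s3⟩ := hstep _ _ _ e₂ e₃
  have h0 : ζ₂ ≠ 0 := by rintro rfl; rw [zero_pow hq0.ne', zero_mul] at s1; exact hb s1.symm
  have h1 : ζ₂ ^ (q - p) = 1 := by
    have : ζ₂ ^ (q - p) * (ζ₂ ^ p * a) = 1 * (ζ₂ ^ p * a) := by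
      rw [← mul_assoc, ← pow_add, Nat.sub_add_cancel hpq.le, s1, one_mul, s2, s3]
    exact mul_right_cancel₀ (mul_ne_zero (pow_ne_zero _ h0) ha) this
  rw [eq_one_of_coprime (coprime_sub hpq hcop _) h1 z₂, one_pow, one_mul] at s1
  exact hab s1

theorem cf (hU : UStmt) (hD : DegStmt) (hNA : NAStmt) (hC : CF1Stmt) : CFStmt := by
  intro p q a b hp hpq hcop ha hb hab U D D' o o' x x' hs hx
  have hp0 : 0 < p := by omega
  have hpq0 : 0 < p * q := Nat.mul_pos hp0 (by omega)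
  obtain ⟨d, hd, Ca, -, hS⟩ := exists_Sz_finset {a, b}
  have hd1 : (1 : ℝ) ≤ d := by exact_mod_cast hd
  obtain ⟨AD, hD⟩ := hD p q a b d hp hpq hcop ha hb hab
  have hC' : ∀ z : Qb × Qb, ∃ A : ℝ, z.1 ≠ 0 → z.2 ≠ 0 → z.1 ≠ z.2 →
      ∀ (U : Ultrafilter ℕ) (D : ℕ → Dat p q z.1) (D' : ℕ → Dat p q z.2) (o o' j₁ : ℕ) (x x' : Qb),
      Seq U D D' o o' →
      (∀ᶠ ν in (U : Filter ℕ), (D ν).u 0 = x ∧ (D' ν).u 0 = x' ∧ A ≤ lp ((D ν).t j₁)) → False := by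
    intro z
    by_cases h : z.1 ≠ 0 ∧ z.2 ≠ 0 ∧ z.1 ≠ z.2
    · obtain ⟨A, hA⟩ := hC p q z.1 z.2 hp hpq hcop h.1 h.2.1 h.2.2
      exact ⟨A, fun _ _ _ => hA⟩
    · exact ⟨0, fun h1 h2 h3 => absurd ⟨h1, h2, h3⟩ h⟩
  choose f hf using hC'
  obtain ⟨A₁, hA₁⟩ := (((orb_finite ⊤ a).prod (orb_finite ⊤ b)).image f).bddAbove
  obtain ⟨j₁, hU⟩ := hU p q a (max A₁ (max AD (Real.log d + 1))) hp hpq hcop ha
  obtain ⟨CD, hD⟩ := hD j₁ (o + o')
  set I₀ := (GK p q a b ⊓ Fix ℚ {x, x'}).index with hI₀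
  obtain ⟨B, hB⟩ := exists_nat_ge (((q : ℝ) / p) ^ j₁ * (2 * Real.log (1 + d)))
  obtain ⟨N, hN⟩ := eventually_atTop.1
    (poly_le_two_pow (2 ^ (j₁ + 2) * (2 * I₀ ^ 2 * B) + 1) (2 * CD))
  have harch : ∀ᶠ ν in (U : Filter ℕ), ∃ g : Gal, A₁ ≤ lp (g ((D ν).t j₁)) := by
    filter_upwards [hs.top, hx, hs.long (j₁ + N)] with ν ⟨htop, hn⟩ ⟨h1, h2⟩ hl
    rcases hU (D ν) (by omega) with ⟨g, hg⟩ | ⟨l, _, ψ, hψ⟩
    · exact ⟨g, (le_max_left _ _).trans hg⟩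
    exfalso
    have na := padic_le_of_Sz ψ hd (hS a (by simp)).1
    have nb := padic_le_of_Sz ψ hd (hS b (by simp)).1
    have a1 := hD _ (goodF_padic l) ψ (liP_padic ψ) na nb (D ν) (D' ν) htop (by omega) (by omega)
      (by omega) ((le_max_left _ _).trans ((le_max_right _ _).trans hψ))
    rw [HC_eq _ _ h1 h2] at a1
    have a2 : Real.log d + 1 ≤ lp (ψ ((D ν).t j₁)) :=
      (le_max_right _ _).trans ((le_max_right _ _).trans hψ)
    have hlog := Real.log_nonneg hd1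
    have a3 : (d : ℝ) < ‖ψ ((D ν).t j₁)‖ := by
      rw [norm_eq_exp_lp (by linarith), ← Real.log_lt_iff_lt_exp (by linarith)]; linarith
    have a4 := hNA p q hp hpq hcop l ψ a ((D ν).n - j₁) (fun i => (D ν).t (j₁ + i))
      (HL (D ν) (D' ν) 0) ((D ν).ht.shift (by omega))
      ((max_le hd1 na).trans_lt (a3.trans_le (le_self_pow₀ (by linarith) (by omega))))
      (HL_index _ _ hpq0 0) (fun g hg => by
        have h3 : ∀ j ≤ (D ν).n, g ((D ν).t j) = (D ν).t j := fun j hj => by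
          rw [← (D ν).lev_sub hj]
          exact ((mem_HL _ _).1 hg).2.2.2.1 _ (Nat.zero_le _) (Nat.sub_le _ _)
        exact ⟨h3 _ (by omega), h3 _ (by omega)⟩)
    have a5 := ((D ν).lp_t_le hp0 hpq ψ na (j := j₁) (by omega)).trans hB
    have a6 : p ^ ((D ν).n - j₁) ≤ 2 * (HL (D ν) (D' ν) 0).index ^ 2 * B := by
      have : (p : ℝ) ^ ((D ν).n - j₁) ≤ 2 * ((HL (D ν) (D' ν) 0).index : ℝ) ^ 2 * B :=
        a4.trans (mul_le_mul_of_nonneg_left a5 (by positivity))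
      exact_mod_cast this
    have a7 := hN ((D ν).n + 2) (by omega)
    have a8 : 2 ^ ((D ν).n + 2) = 2 ^ (j₁ + 2) * 2 ^ ((D ν).n - j₁) := by
      rw [← pow_add]; congr 1; omega
    have a9 : 2 ^ ((D ν).n - j₁) ≤ 2 * I₀ ^ 2 * B * ((D ν).n + 2) ^ (2 * CD) :=
      calc _ ≤ p ^ ((D ν).n - j₁) := Nat.pow_le_pow_left hp _
        _ ≤ 2 * (I₀ * ((D ν).n + 2) ^ CD) ^ 2 * B := a6.trans (by gcongr)
        _ = _ := by ring
    have a10 : 0 < ((D ν).n + 2) ^ (2 * CD) := by positivity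
    have a11 := Nat.mul_le_mul_left (2 ^ (j₁ + 2)) a9
    rw [add_mul, mul_assoc (2 ^ (j₁ + 2)), a8] at a7
    omega
  obtain ⟨g, hg⟩ := harch.choice
  have hT : (orb ⊤ a ×ˢ orb ⊤ b) ×ˢ (orb ⊤ x ×ˢ orb ⊤ x') ∈
      U.map fun ν => ((g ν a, g ν b), (g ν x, g ν x')) :=
    Ultrafilter.mem_map.2 (univ_mem' fun ν => ⟨⟨⟨_, trivial, rfl⟩, ⟨_, trivial, rfl⟩⟩,
      ⟨⟨_, trivial, rfl⟩, ⟨_, trivial, rfl⟩⟩⟩)
  obtain ⟨⟨⟨a', b'⟩, y, y'⟩, hmem, hpure⟩ := Ultrafilter.eq_pure_of_finite_mem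
    (((orb_finite ⊤ a).prod (orb_finite ⊤ b)).prod ((orb_finite ⊤ x).prod (orb_finite ⊤ x'))) hT
  have hc : ∀ᶠ ν in (U : Filter ℕ), g ν a = a' ∧ g ν b = b' ∧ g ν x = y ∧ g ν x' = y' := by
    have : {((a', b'), y, y')} ∈ U.map fun ν => ((g ν a, g ν b), (g ν x, g ν x')) := by
      rw [hpure]; exact Ultrafilter.mem_pure.2 rfl
    filter_upwards [Ultrafilter.mem_map.1 this] with ν h
    simpa [and_assoc] using h
  obtain ⟨ν₀, h1, h2, -⟩ := hc.exists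
  refine hf (a', b') (by simpa [← h1] using ha) (by simpa [← h2] using hb)
    (by simpa [← h1, ← h2] using hab) U
    (fun ν => if h : g ν a = a' then (D ν).map (g ν) h else (D ν₀).map (g ν₀) h1)
    (fun ν => if h : g ν b = b' then (D' ν).map (g ν) h else (D' ν₀).map (g ν₀) h2)
    o o' j₁ y y' ⟨?_, fun J => ?_⟩ ?_
  · filter_upwards [hc, hs.top] with ν ⟨c1, c2, _⟩ ⟨t1, t2⟩
    simp only [dif_pos c1, dif_pos c2, Dat.map_n, Dat.map_t]
    exact ⟨by rw [← map_pow, ← map_pow, t1], t2⟩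
  · filter_upwards [hc, hs.long J] with ν ⟨c1, _⟩ hl
    simpa only [dif_pos c1, Dat.map_n] using hl
  · filter_upwards [hc, hx, hg] with ν ⟨c1, c2, c3, c4⟩ ⟨x1, x2⟩ hA
    simp only [dif_pos c1, dif_pos c2, Dat.map_u, Dat.map_t, x1, x2]
    exact ⟨c3, c4, (hA₁ ⟨_, hmem.1, rfl⟩).trans hA⟩

end Pool.Agent.MP_09973c_nt.H71
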