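import Pool.Agent.MP_09973c_nt.H58.SpecA

/-!
Escape of many conjugates, finiteness of doubly small points, uniform escape.
-/

set_option autoImplicit false

namespace Pool.Agent.MP_09973c_nt.H71

open Polynomial Finset Filter Classical Pool.Agent.MP_09973c_nt.H58

theorem bwd_mono {A : Type} [CommRing A] {p q n m : ℕ} {c : A} {u : ℕ → A} (h : Bwd p q c n u)
    (hm : m ≤ n) : Bwd p q c m u := fun k hk => h k (lt_of_lt_of_le hk hm)

theorem one_lt_theta {p q : ℕ} (hp : 0 < p) (hpq : p < q) : (1 : ℝ) < (q : ℝ) / p := by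
  have hp' : (0 : ℝ) < p := by exact_mod_cast hp
  rw [one_lt_div hp']
  exact_mod_cast hpq

theorem exists_theta {p q : ℕ} (hp : 0 < p) (hpq : p < q) {δ : ℝ} (hδ : 0 < δ) (A : ℝ) :
    ∃ j : ℕ, A < δ * ((q : ℝ) / p) ^ j := by
  obtain ⟨j, hj⟩ := pow_unbounded_of_one_lt (A / δ) (one_lt_theta hp hpq)
  exact ⟨j, by rwa [div_lt_iff₀' hδ] at hj⟩

theorem esc (hDP : DPStmt) (hL : LargeStmt) (hEA : EAStmt) : ESCStmt := by
  intro p q a G hp hpq hcop ha hG hGK
  have hp0 : 0 < p := by omega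
  have ha' : (a : ℂ) ≠ 0 := by exact_mod_cast ha
  obtain ⟨δ, hδ, m₁, hE⟩ := hEA p q a hp hpq hcop ha'
  refine ⟨δ / 2, by positivity, fun C₀ d j W hd => ?_⟩
  obtain ⟨da, hda, Ca, hCa, hSa⟩ := exists_Sz a
  set C₁ : ℝ := max C₀ (2 + ‖a‖) with hC₁
  have hC1 : 1 ≤ C₁ := le_max_of_le_right (by linarith [norm_nonneg a])
  have hSa' : Sz a (d * da) Ca := hSa.mono (dvd_mul_left _ _) le_rfl
  obtain ⟨C, hC⟩ := hDP p q a G C₁ (d * da) hp hpq hcop ha hG hGK (le_max_right _ _)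
    (by positivity) hSa'.1
  have hθ : 0 < ((q : ℝ) / p) ^ j := pow_pos (by linarith [one_lt_theta hp0 hpq]) _
  set θ : ℝ := ((q : ℝ) / p) ^ j with hθdef
  set K₀ : ℕ := q ^ (m₁ + j) with hK₀
  have hK₀pos : 0 < K₀ := pow_pos (by omega) _
  set E : ℕ := ⌈8 * (K₀ : ℝ) / (δ / 2 * θ)⌉₊ + 1 with hEdef
  have hEpos : 0 < E := Nat.succ_pos _
  have hE8 : 8 * (K₀ : ℝ) ≤ E * (δ * θ - δ / 2 * θ) := by
    have h1 : 8 * (K₀ : ℝ) / (δ / 2 * θ) ≤ E := by
      rw [hEdef]; push_cast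
      linarith [Nat.le_ceil (8 * (K₀ : ℝ) / (δ / 2 * θ))]
    rw [div_le_iff₀ (by positivity)] at h1
    have : δ * θ - δ / 2 * θ = δ / 2 * θ := by ring
    rwa [this]
  have hB0 : 0 ≤ θ * (Real.log C₁ + Real.log (1 + Ca)) :=
    mul_nonneg hθ.le (add_nonneg (Real.log_nonneg hC1) (log_one_add_nonneg (by linarith)))
  set Mx : ℝ := 1 + θ * (Real.log C₁ + Real.log (1 + Ca)) with hMx
  have hMx1 : 1 ≤ Mx := by linarith
  set K : ℕ := K₀ + ⌈(E : ℝ) * Mx * W⌉₊ with hK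
  obtain ⟨m, hm, hD⟩ := hC j E K m₁ hEpos (by omega)
  refine ⟨m, (2 ^ (j + m₁ + 1) * E * K) ^ C, fun ξ u t hξ hξ1 hu hS ht0 ht horb => ?_⟩
  have hS' : ∀ i ≤ m, Sz (u i) (d * da) C₁ := fun i hi =>
    (hS i hi).mono (dvd_mul_right _ _) (le_max_left _ _)
  obtain ⟨N, N', R, g, hKN, -, hgrid, hg, hinj, hNN, hEQ⟩ := hD ξ u t hξ hξ1 hu hS' ht0 ht horb
  have hξ' : (ξ : ℂ) ^ p = 1 := by exact_mod_cast hξ
  have hξ1' : (ξ : ℂ) ≠ 1 := by exact_mod_cast hξ1
  have hfrac := hgrid.frac m₁ hm j le_rfl (univ.filter fun l => δ * θ ≤ lp ((R l).2 j)) (by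
    intro x
    obtain ⟨u', t', h1, h2, h3, h4, h5⟩ := hE m₁ le_rfl ξ ((R x).1 m₁) j hξ' hξ1'
    refine ⟨u', t', h1, h2, h3, h4, fun y _ hy => ?_⟩
    rw [mem_filter, hy j le_rfl]
    exact ⟨mem_univ _, h5⟩)
  have ht0S : Sz (t 0) (d * da) C₁ := by
    have := (Sz.root hp0 hξ).mul (hS' 0 (Nat.zero_le _))
    rwa [one_mul, one_mul, ← ht0] at this
  have htj := bwd_Sz hp0 hpq hSa' ht hC1 ht0S j le_rfl
  have hN1 : (1 : ℝ) ≤ N := by
    have : 1 ≤ N := by omega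
    exact_mod_cast this
  have hKK : (K₀ : ℝ) ≤ K := by exact_mod_cast (Nat.le_add_right _ _ : K₀ ≤ K)
  have hlarge := hL (Fin N) N' E K₀ _ _ (δ / 2 * θ) (δ * θ) Mx hEQ (by positivity) hMx1
    (fun l => by
      have := lp_le_of_norm_le hB0 (htj.2 (g l))
      rw [lp_coe]; linarith) hE8 hfrac (by
      rw [Fintype.card_fin]
      rcases le_total ((N : ℝ) - N') 0 with h | h
      · have : 2 * (K₀ : ℝ) * ((N : ℝ) - N') ≤ 0 :=
          mul_nonpos_of_nonneg_of_nonpos (by positivity) h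
        linarith
      · refine le_trans (mul_le_mul_of_nonneg_right ?_ h) hNN
        have h1 := Real.log_nonneg hN1
        have h2 : (0 : ℝ) ≤ K₀ := by positivity
        nlinarith)
  rw [Fintype.card_fin] at hlarge
  set S := univ.filter fun l => δ / 2 * θ < lp ((g l (t j) : Qb) : ℂ) with hSdef
  have hW : W ≤ S.card := by
    have h1 : (E : ℝ) * Mx * W ≤ N := by
      have h2 : (K : ℝ) ≤ N := by exact_mod_cast hKN
      have h3 : (K : ℝ) = K₀ + ⌈(E : ℝ) * Mx * W⌉₊ := by rw [hK]; push_cast; ring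
      have h4 : (0 : ℝ) ≤ K₀ := by positivity
      linarith [Nat.le_ceil ((E : ℝ) * Mx * W)]
    have h5 : (0 : ℝ) < E * Mx := by positivity
    have := le_of_mul_le_mul_left (h1.trans hlarge) h5
    exact_mod_cast this
  obtain ⟨f⟩ : Nonempty (Fin W ↪ S) :=
    Function.Embedding.nonempty_of_card_le (by simpa using hW)
  refine ⟨fun l => g (f l), fun l => hg _, fun l l' h => ?_, fun l => ?_⟩
  · exact f.injective (Subtype.ext (hinj h))
  · exact (mem_filter.1 (f l).2).2.le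

theorem finF (hE : ESCStmt) : FinFStmt := by
  intro p q a C₀ d hp hpq hcop ha hd
  have hp0 : 0 < p := by omega
  have hG := GK_index (Nat.mul_pos hp0 (hp0.trans hpq)) a a
  obtain ⟨δ, hδ, h⟩ := hE p q a _ hp hpq hcop ha hG le_rfl
  obtain ⟨j, hj⟩ := exists_theta hp0 hpq hδ (Real.log (max 1 C₀))
  obtain ⟨m, C₁, h⟩ := h C₀ d j 1 hd
  refine ⟨max m j, (northcott hG C₁ hd C₀).subset ?_⟩
  rintro x ⟨ξ, u, t, hξ, hξ1, rfl, ht0, hu, ht, hS⟩
  refine ⟨?_, (hS 0 (Nat.zero_le _)).1⟩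
  by_contra hc
  obtain ⟨g, -, -, hg⟩ := h ξ u t hξ hξ1 (bwd_mono hu (le_max_left _ _))
    (fun i hi => (hS i (hi.trans (le_max_left _ _))).1) ht0 (bwd_mono ht (le_max_right _ _))
    (not_le.1 hc)
  have h1 : lp (g 0 (t j)) ≤ Real.log (max 1 C₀) :=
    Real.log_le_log (by positivity)
      (max_le_max le_rfl ((hS j (le_max_right _ _)).2.2 (g 0)))
  linarith [hg 0]

/-- Small at the top of a backward chain means small everywhere below. -/
theorem lp_le_of_top {F : Type} [NormedField F] {p q n : ℕ} (hp : 0 < p) (hpq : p < q) {c : F}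
    {Ca A : ℝ} (hc : ‖c‖ ≤ Ca) {t : ℕ → F} (ht : Bwd p q c n t) (hA : lp (t n) ≤ A) {i : ℕ}
    (hi : i ≤ n) : lp (t i) ≤ max (Real.log (1 + Ca)) A := by
  have h := esc_low hp hpq hc (ht.shift (i := i) (m := n - i) (by omega)) (n - i) le_rfl
  simp only [add_zero, Nat.add_sub_cancel' hi] at h
  rcases le_total (lp (t i)) (Real.log (1 + Ca)) with h1 | h1
  · exact le_max_of_le_left h1
  · have h2 : 1 ≤ ((q : ℝ) / p) ^ (n - i) := one_le_pow₀ (one_lt_theta hp hpq).le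
    refine le_max_of_le_right ?_
    nlinarith

theorem padic_nat {l : ℕ} [Fact l.Prime] (d : ℕ) :
    ‖(d : PadicAlgCl l)‖ = 1 ∨ ‖(d : PadicAlgCl l)‖ ≤ 1 / 2 := by
  have h1 : ‖(d : PadicAlgCl l)‖ = ‖(d : ℚ_[l])‖ := by
    rw [← PadicAlgCl.norm_extends]; simp
  rw [h1]
  by_cases h : l ∣ d
  · right
    obtain ⟨e, rfl⟩ := h
    have h2 : (2 : ℝ) ≤ l := by exact_mod_cast (Fact.out : l.Prime).two_le
    have h3 : ‖(e : ℚ_[l])‖ ≤ 1 := by exact_mod_cast Padic.norm_int_le_one (p := l) (e : ℤ)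
    push_cast
    rw [norm_mul, Padic.norm_p]
    calc (l : ℝ)⁻¹ * ‖(e : ℚ_[l])‖ ≤ (l : ℝ)⁻¹ * 1 := by gcongr
      _ ≤ 1 / 2 := by rw [mul_one, ← one_div]; gcongr
  · left
    exact Padic.norm_natCast_eq_one_iff.2 ((Nat.Prime.coprime_iff_not_dvd Fact.out).2 h)

theorem t_inj {p q : ℕ} {c : Qb} (D : Dat p q c) {i i' : ℕ} (h : i < i') (hi' : i' ≤ D.n) :
    D.t i ≠ D.t i' := by
  intro he
  refine D.ncyc i (by omega) ⟨fun k => D.t (i + k % (i' - i)), i' - i, by omega, fun k => ?_,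
    fun k => by simp, by simp⟩
  have hr : k % (i' - i) < i' - i := Nat.mod_lt _ (by omega)
  have h1 := D.ht (i + k % (i' - i)) (by omega)
  rcases lt_or_ge (k % (i' - i) + 1) (i' - i) with h2 | h2
  · have : (k + 1) % (i' - i) = k % (i' - i) + 1 := by
      rw [← Nat.mod_add_mod, Nat.mod_eq_of_lt h2]
    simp only [this]
    exact h1
  · have h3 : k % (i' - i) + 1 = i' - i := by omega
    have : (k + 1) % (i' - i) = 0 := by
      rw [← Nat.mod_add_mod, h3, Nat.mod_self]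
    simp only [this, add_zero]
    rwa [show i + k % (i' - i) + 1 = i' by omega, ← he] at h1

/-- The data cut at a smaller depth. -/
def cut {p q : ℕ} {c : Qb} (D : Dat p q c) (n : ℕ) (hn : n ≤ D.n) : Dat p q c :=
  { D with n := n, ht := bwd_mono D.ht hn, ncyc := fun j hj => D.ncyc j (hj.trans hn) }

theorem uesc (hE : ESCStmt) (hF : FinFStmt) : UStmt := by
  intro p q a A hp hpq hcop ha
  have hp0 : 0 < p := by omega
  have hpq0 : 0 < p * q := Nat.mul_pos hp0 (hp0.trans hpq)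
  have hG := GK_index hpq0 a a
  obtain ⟨da, hda, Ca, hCa, hSa⟩ := exists_Sz a
  set A' : ℝ := max (Real.log (1 + (Ca + da))) A with hA'
  have hda0 : (0 : ℝ) ≤ da := by positivity
  obtain ⟨K, hK⟩ := pow_unbounded_of_one_lt (Real.exp A') (by norm_num : (1 : ℝ) < 2)
  have hd' : 0 < da ^ (K + 1) := by positivity
  obtain ⟨δ, hδ, h⟩ := hE p q a _ hp hpq hcop ha hG le_rfl
  obtain ⟨j₀, hj₀⟩ := exists_theta hp0 hpq hδ A'
  obtain ⟨m₀, C₁, h⟩ := h (Real.exp A') (da ^ (K + 1)) j₀ 1 hd'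
  obtain ⟨m, hFin⟩ := hF p q a (Real.exp A') (da ^ (K + 1)) hp hpq hcop ha hd'
  have hNo := northcott hG (C₁ * C₁ * (GK p q a a).index * (p ^ 2) ^ hFin.toFinset.card) hd'
    (Real.exp A')
  refine ⟨j₀ + m + hNo.toFinset.card, fun D hD => ?_⟩
  set j₁ := j₀ + m + hNo.toFinset.card with hj₁
  by_contra hc
  push Not at hc
  obtain ⟨hc1, hc2⟩ := hc
  have hA0 : 0 ≤ A' := le_max_of_le_left (log_one_add_nonneg (by linarith))
  have hT : Bwd p q a j₁ D.t := bwd_mono D.ht hD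
  have harch : ∀ i ≤ j₁, ∀ g : Gal, lp (g (D.t i)) ≤ A' := fun i hi g =>
    lp_le_of_top hp0 hpq (c := g a) (by linarith [hSa.2 g])
      (hT.map g.toRingEquiv.toRingHom) (hc1 g).le hi
  have hSt : ∀ i ≤ j₁, Sz (D.t i) (da ^ (K + 1)) (Real.exp A') := by
    intro i hi
    refine ⟨integral_of_padic fun l _ ψ => ?_, fun g =>
      (norm_le_exp_lp _).trans (Real.exp_le_exp.2 (harch i hi g))⟩
    rw [map_mul, map_natCast, Nat.cast_pow, norm_mul, norm_pow]
    rcases padic_nat (l := l) da with h1 | h1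
    · have h2 := padic_le_one ψ (bwd_integral hp0 hSa.1 hT (D.t0_Sz hp0 hpq hSa).1 i hi)
      rw [map_mul, map_natCast, Nat.cast_pow, norm_mul, norm_pow, h1, one_pow] at h2
      rwa [h1, one_pow]
    · have h2 : lp (ψ (D.t i)) ≤ A' :=
        lp_le_of_top hp0 hpq (c := ψ a) (by linarith [padic_le_of_Sz ψ hda hSa.1])
          (hT.map ψ) (hc2 l _ ψ).le hi
      have h3 : ‖ψ (D.t i)‖ ≤ 2 ^ (K + 1) := by
        have := (norm_le_exp_lp _).trans (Real.exp_le_exp.2 h2)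
        have h4 : (2 : ℝ) ^ K ≤ 2 ^ (K + 1) := pow_le_pow_right₀ (by norm_num) (by omega)
        linarith
      calc ‖(da : PadicAlgCl l)‖ ^ (K + 1) * ‖ψ (D.t i)‖ ≤ (1 / 2) ^ (K + 1) * 2 ^ (K + 1) := by
            gcongr
        _ = 1 := by rw [← mul_pow]; norm_num
  have hSu : ∀ i, Sz (D.u i) (da ^ (K + 1)) (Real.exp A') := fun i =>
    (D.u_Sz hp0 hpq hSa i).mono (dvd_pow_self _ (by omega)) (by
      have h1 : Real.exp (Real.log (1 + (Ca + da))) ≤ Real.exp A' :=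
        Real.exp_le_exp.2 (le_max_left _ _)
      rw [Real.exp_log (by linarith)] at h1
      linarith)
  have horb : (orb (GK p q a a) (D.u 0)).ncard ≤ C₁ := by
    by_contra hlt
    obtain ⟨g, -, -, hg⟩ := h D.ξ D.u D.t D.hξ D.hξ1 (D.bwd_u m₀) (fun i _ => hSu i) D.ht0
      (bwd_mono hT (by omega)) (not_le.1 hlt)
    linarith [hg 0, harch j₀ (by omega) (g 0)]
  set n₁ := hNo.toFinset.card with hn₁
  set D₁ := cut D n₁ (by omega) with hD₁
  have hlev : ∀ l, D₁.lev l = D.t (n₁ - l) := fun l => rfl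
  have hinj : ∀ i ≤ n₁, ∀ i' ≤ n₁, D.t i = D.t i' → i = i' := by
    intro i hi i' hi' he
    rcases lt_trichotomy i i' with h1 | h1 | h1
    · exact absurd he (t_inj D h1 (by omega))
    · exact h1
    · exact absurd he.symm (t_inj D h1 (by omega))
  set Γ := (range (n₁ + 1)).filter fun l => D.t (n₁ - l) ∈ hFin.toFinset with hΓ
  have hΓc : Γ.card ≤ hFin.toFinset.card := by
    refine card_le_card_of_injOn (fun l => D.t (n₁ - l)) (fun l hl => (mem_filter.1 hl).2) ?_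
    intro l hl l' hl' he
    have h1 := mem_range.1 (mem_filter.1 hl).1
    have h2 := mem_range.1 (mem_filter.1 hl').1
    have := hinj _ (Nat.sub_le _ _) _ (Nat.sub_le _ _) he
    omega
  have hidx := HL_index_le D₁ D₁ hp0 Γ (by
    intro l hl g hg
    rw [mem_HL] at hg ⊢
    have key : ∀ i, l ≤ i → i ≤ D₁.n → g (D₁.lev i) = D₁.lev i := by
      intro i hi hin
      rcases hi.lt_or_eq with h1 | rfl
      · exact hg.2.2.2.1 i h1 hin
      obtain ⟨ω, hω, hrot⟩ := D₁.rot_lev hp0 hg.1 hg.2.1 (l := l) (hg.2.2.2.1 (l + 1) le_rfl)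
      by_cases hω1 : ω = 1
      · rw [hrot, hω1, one_mul]
      exfalso
      have hin' : l ≤ n₁ := hin
      refine hl (mem_filter.2 ⟨mem_range.2 (by omega), ?_⟩)
      have hsh := hT.shift (i := n₁ - l) (m := m) (by omega)
      have hsh' := hsh.map g.toRingEquiv.toRingHom
      have hga : g.toRingEquiv.toRingHom a = a := GK_left hg.1
      rw [hga] at hsh'
      rw [Set.Finite.mem_toFinset]
      exact ⟨ω, _, _, hω, hω1, rfl, hrot, hsh, hsh', fun i hi =>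
        ⟨hSt _ (by omega), (hSt _ (by omega)).map g⟩⟩
    exact ⟨hg.1, hg.2.1, hg.2.2.1, key, key⟩)
  have hHC : (HC D₁ D₁).index ≤ C₁ * C₁ * (GK p q a a).index :=
    (HC_index_le D₁ D₁).trans (by
      have : D₁.u 0 = D.u 0 := rfl
      rw [this]; gcongr)
  have hmem : ∀ i ∈ range (n₁ + 1), D.t i ∈ hNo.toFinset := by
    intro i hi
    have hi' := mem_range.1 hi
    rw [Set.Finite.mem_toFinset]
    refine ⟨?_, hSt i (by omega)⟩
    have hle : HL D₁ D₁ 0 ≤ GK p q a a ⊓ Fix ℚ {D.t i} := by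
      intro g hg
      rw [mem_HL] at hg
      refine ⟨hg.1, mem_Fix.2 ?_⟩
      rintro x rfl
      have := hg.2.2.2.1 (n₁ - i) (Nat.zero_le _) (Nat.sub_le _ _)
      rwa [hlev, show n₁ - (n₁ - i) = i by omega] at this
    have h1 : (GK p q a a ⊓ Fix ℚ {D.t i}).index ≤ (HL D₁ D₁ 0).index :=
      Nat.le_of_dvd (Nat.pos_of_ne_zero (HL_index D₁ D₁ hpq0 0)) (Subgroup.index_dvd_of_le hle)
    rw [index_inf_Fix] at h1
    calc (orb (GK p q a a) (D.t i)).ncard
        ≤ (orb (GK p q a a) (D.t i)).ncard * (GK p q a a).index :=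
          Nat.le_mul_of_pos_right _ (Nat.pos_of_ne_zero hG)
      _ ≤ (HC D₁ D₁).index * (p ^ 2) ^ Γ.card := h1.trans hidx
      _ ≤ _ := Nat.mul_le_mul hHC (Nat.pow_le_pow_right (by positivity) hΓc)
  have := card_le_card_of_injOn D.t hmem (fun i hi i' hi' he =>
    hinj i (by have := mem_range.1 hi; omega) i' (by have := mem_range.1 hi'; omega) he)
  rw [card_range] at this
  omega

end Pool.Agent.MP_09973c_nt.H71
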