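import Pool.Agent.MP_09973c_nt.H58.SpecT
import Pool.Agent.MP_09973c_nt.H71.Esc

/-!
No exceptional level in the middle range.
-/

set_option autoImplicit false

namespace Pool.Agent.MP_09973c_nt.H71

open Polynomial Finset Filter Classical Pool.Agent.MP_09973c_nt.H58

theorem theta_ge {p q : ℕ} (hp : 0 < p) (hpq : p < q) (s : ℕ) : (s : ℝ) / p ≤ ((q : ℝ) / p) ^ s := by
  have hp' : (0 : ℝ) < p := by exact_mod_cast hp
  have hq : (p : ℝ) + 1 ≤ q := by exact_mod_cast hpq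
  have h1 := one_add_mul_le_pow (a := 1 / (p : ℝ)) (by
    have : (0 : ℝ) ≤ 1 / p := by positivity
    linarith) s
  have h2 : 1 + 1 / (p : ℝ) ≤ (q : ℝ) / p := by
    rw [le_div_iff₀ hp']; field_simp; linarith
  calc (s : ℝ) / p ≤ 1 + s * (1 / p) := by rw [mul_one_div]; linarith
    _ ≤ (1 + 1 / (p : ℝ)) ^ s := h1
    _ ≤ _ := pow_le_pow_left₀ (by positivity) h2 s

/-- Growth from depth `i` to depth `i'`. -/
theorem grow {F : Type} [NormedField F] {p q n : ℕ} (hp : 0 < p) (hpq : p < q) {c : F} {Ca : ℝ}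
    (hc : ‖c‖ ≤ Ca) {t : ℕ → F} (ht : Bwd p q c n t) {i i' : ℕ} (hi : i ≤ i') (hi' : i' ≤ n) :
    ((q : ℝ) / p) ^ (i' - i) * (lp (t i) - Real.log (1 + Ca)) ≤ lp (t i') - Real.log (1 + Ca) := by
  have h := esc_low hp hpq hc (ht.shift (i := i) (m := i' - i) (by omega)) (i' - i) le_rfl
  simpa only [add_zero, Nat.add_sub_cancel' hi] using h

theorem grow_one {p q : ℕ} (hp : 0 < p) (hpq : p < q) {c : Qb} {Ca : ℝ} (hc : ‖c‖ ≤ Ca)
    (D : Dat p q c) {j₁ i : ℕ} (hA : Real.log (1 + Ca) + 1 ≤ lp (D.t j₁)) (hi : i + j₁ ≤ D.n) :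
    ((q : ℝ) / p) ^ (D.n - i - j₁) + Real.log (1 + Ca) ≤ lp (D.lev i) := by
  have h := grow hp hpq hc D.ht (i := j₁) (i' := D.n - i) (by omega) (by omega)
  have h0 : 0 < ((q : ℝ) / p) ^ (D.n - i - j₁) := pow_pos (by linarith [one_lt_theta hp hpq]) _
  rw [Dat.lev]
  nlinarith

theorem lp_of_pow_eq {F : Type} [NormedField F] {q : ℕ} (hq : 0 < q) {x y : F}
    (h : y ^ q = x ^ q) : lp y = lp x := by
  have h4 := congrArg lp h
  rw [lp_pow, lp_pow] at h4
  exact mul_left_cancel₀ (by exact_mod_cast hq.ne') h4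

theorem one_le_norm {F : Type} [NormedField F] {x : F} (h : 0 < lp x) : 1 ≤ ‖x‖ := by
  rw [norm_eq_exp_lp h]; exact Real.one_le_exp h.le

theorem coprime_sub {p q : ℕ} (hpq : p < q) (h : p.Coprime q) (k : ℕ) : (q - p).Coprime (q ^ k) :=
  Nat.Coprime.pow_right _ ((Nat.coprime_self_sub_left hpq.le).2 h)

/-- A swap forces the exponent `p` to be odd. -/
theorem swap_odd {p q j : ℕ} (hp : 0 < p) (hpq : p < q) (hcop : p.Coprime q) {a b μ x x' ζ ζ' : Qb}
    {C : ℝ} (ha : a ≠ 0) (hab : a ≠ b) (h1 : μ ^ p * b = a) (h2 : μ ^ q * b = a)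
    (hζ : ζ ^ q ^ (j + 1) = 1) (hζ' : ζ' ^ q ^ (j + 1) = 1) (e1 : ‖x' - ζ * x‖ ≤ C)
    (e2 : ‖x - μ * (ζ' * (μ * x'))‖ ≤ C) (hx : 2 * C * ((q : ℝ) ^ (j + 2)) ^ 3 < ‖x‖) :
    Nat.Coprime 2 p := by
  have hμ0 : μ ≠ 0 := by rintro rfl; rw [zero_pow hp.ne', zero_mul] at h1; exact ha h1.symm
  have hb : b ≠ 0 := by rintro rfl; rw [mul_zero] at h1; exact ha h1.symm
  have hμ : μ ^ (q - p) = 1 := by
    have : μ ^ (q - p) * (μ ^ p * b) = 1 * (μ ^ p * b) := by
      rw [← mul_assoc, ← pow_add, Nat.sub_add_cancel hpq.le, h2, one_mul, h1]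
    exact mul_right_cancel₀ (by rw [h1]; exact ha) this
  have hq : 0 < q := by omega
  have hM : 0 < (q - p) * q ^ (j + 1) := Nat.mul_pos (by omega) (by positivity)
  have hη : (μ ^ 2 * (ζ' * ζ)) ^ ((q - p) * q ^ (j + 1)) = 1 := by
    rw [mul_pow, mul_pow, ← pow_mul, mul_comm 2, mul_assoc, pow_mul μ, hμ, one_pow,
      mul_comm (q - p), pow_mul, pow_mul, hζ, hζ']
    simp
  have n1 := norm_root (by omega : 0 < q - p) hμ
  have n2 := norm_root (by positivity) hζ'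
  have hη1 : μ ^ 2 * (ζ' * ζ) = 1 := by
    by_contra hne
    have h3 := sep goodF_Qb hM hη hne
    have h4 : ‖μ ^ 2 * (ζ' * ζ) - 1‖ * ‖x‖ ≤ 2 * C := by
      rw [← norm_mul]
      have : (μ ^ 2 * (ζ' * ζ) - 1) * x =
          -(x - μ * (ζ' * (μ * x'))) - μ ^ 2 * ζ' * (x' - ζ * x) := by ring
      rw [this]
      refine (norm_sub_le _ _).trans ?_
      rw [norm_neg, norm_mul, norm_mul, norm_pow, n1, n2]
      linarith
    have h5 : (((q - p) * q ^ (j + 1) : ℕ) : ℝ) ≤ (q : ℝ) ^ (j + 2) := by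
      have : (q - p) * q ^ (j + 1) ≤ q ^ (j + 2) := by
        rw [pow_succ' q (j + 1)]; exact Nat.mul_le_mul_right _ (Nat.sub_le _ _)
      exact_mod_cast this
    have h6 : (0 : ℝ) < (((q - p) * q ^ (j + 1) : ℕ) : ℝ) := by exact_mod_cast hM
    have h7 : 1 / ((q : ℝ) ^ (j + 2)) ^ 3 ≤ ‖μ ^ 2 * (ζ' * ζ) - 1‖ :=
      le_trans (by gcongr) h3
    have h8 := (mul_le_mul_of_nonneg_right h7 (norm_nonneg x)).trans h4
    rw [one_div, inv_mul_le_iff₀ (by positivity)] at h8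
    linarith
  have h3 : (μ ^ 2) ^ q ^ (j + 1) = 1 := by
    have := congrArg (· ^ q ^ (j + 1)) hη1
    simpa only [mul_pow, hζ, hζ', mul_one, one_pow] using this
  have h4 : μ ^ 2 = 1 := eq_one_of_coprime (coprime_sub hpq hcop (j + 1))
    (by rw [← pow_mul, mul_comm, pow_mul, hμ, one_pow]) h3
  rw [Nat.coprime_two_left, ← Nat.not_even_iff_odd]
  rintro ⟨r, rfl⟩
  rw [← two_mul, pow_mul, h4, one_pow, one_mul] at h1
  exact hab h1.symm

theorem fix_of_sq {p q : ℕ} (hp : 0 < p) (hcop : p.Coprime q) (hq : 0 < q) (h2 : Nat.Coprime 2 p)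
    {a b : Qb} (D : Dat p q a) {g : Gal} (hg : g ∈ GK p q a b) (h0 : g (D.u 0) = D.u 0) {j l : ℕ}
    (hj : g (g (D.lev j)) = D.lev j) (hjl : j ≤ l)
    (hl : l + 1 ≤ D.n → g (D.lev (l + 1)) = D.lev (l + 1)) : g (D.lev l) = D.lev l := by
  obtain ⟨ω, hω, h⟩ := D.rot_lev hp hg h0 hl
  refine fix_of_coprime h2 ?_ (by rw [pow_apply_of_mul (GK_p hg hω) h, hω, one_mul])
  refine D.fix_lev hp hq hcop ((GK p q a b).pow_mem hg 2) ?_ ?_ hjl
  · rw [sq, AlgEquiv.mul_apply, h0, h0]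
  · rw [sq, AlgEquiv.mul_apply, hj]

theorem ng (hT : TDStmt) (hW : W2Stmt) : NGStmt := by
  intro p q a b hp hpq hcop ha hb hab
  have hp0 : 0 < p := by omega
  have hq0 : 0 < q := by omega
  have hθ := one_lt_theta hp0 hpq
  obtain ⟨d, -, Ca, hCa, hS⟩ := exists_Sz_finset {a, b}
  have hSa := hS a (by simp)
  have hSb := hS b (by simp)
  obtain ⟨AW, CW, hAW, hCW, hW⟩ := hW p q Ca hp hpq hcop
  have hΛ := log_one_add_nonneg (zero_le_one.trans hCa)
  refine ⟨Real.log (1 + Ca) + 1, fun j₁ e => ?_⟩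
  have hc : 0 < (((q : ℝ) / p) ^ (j₁ + e))⁻¹ := by positivity
  obtain ⟨C₁, h₁⟩ := hT p q a b _ e hp hpq hcop ha hb hab hc
  obtain ⟨C₂, h₂⟩ := hT p q b a _ e hp hpq hcop hb ha hab.symm hc
  obtain ⟨B, hB⟩ := exists_nat_gt (AW + Real.log (2 * CW) + 6 * Real.log q)
  refine ⟨C₁ + C₂ + e + 1 + j₁ + p * B, fun D D' L k htop hn hn' hA hL hk hkn l hkl hl σ hσ => ?_⟩
  set C := C₁ + C₂ + e + 1 + j₁ + p * B with hC
  have hk' : ∀ C' ≤ C, (C' * (L + 1)) ^ C' ≤ k := fun C' h => le_trans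
    ((Nat.pow_le_pow_left (Nat.mul_le_mul_right _ h) _).trans
      (Nat.pow_le_pow_right (Nat.mul_pos (by omega) (by omega)) h)) hk
  have hkn' : C₁ * (k + 1) + C₂ * (k + 1) + e + (k + 1) + j₁ + p * B * (k + 1) ≤ D.n := by
    refine le_trans ?_ hkn
    rw [hC]; nlinarith
  rw [mem_HL] at hσ ⊢
  obtain ⟨hG, hu, hu', hlev, hlev'⟩ := hσ
  have hG' : σ ∈ GK p q b a := GK_comm p q a b ▸ hG
  have hlow : ∀ g : Gal, (g = 1 ∨ g = σ) → ∀ i ≤ l,
      ((q : ℝ) / p) ^ (D.n - i - j₁) ≤ lp (g (D.lev i)) := by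
    rintro g (rfl | rfl) i hi
    · rw [AlgEquiv.one_apply]
      linarith [grow_one hp0 hpq hSa.norm_le D hA (i := i) (by omega)]
    · obtain ⟨ω, hω, h⟩ := D.rot_lev hp0 hG hu (hlev (l + 1) le_rfl)
      have h1 := grow_one hp0 hpq hSa.norm_le D hA (i := l) (by omega)
      have h2 := grow hp0 hpq (hSa.2 g) (D.ht.map (g : Qb →+* Qb)) (i := D.n - l) (i' := D.n - i)
        (by omega) (by omega)
      have h3 : lp (g (D.t (D.n - l))) = lp (D.lev l) := by
        rw [← Dat.lev, h, lp_unit_mul (norm_root hp0 hω)]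
      simp only [RingHom.coe_coe, h3] at h2
      have h4 : ((q : ℝ) / p) ^ (D.n - i - j₁) =
          ((q : ℝ) / p) ^ (D.n - i - (D.n - l)) * ((q : ℝ) / p) ^ (D.n - l - j₁) := by
        rw [← pow_add]; congr 1; omega
      have h5 : 0 < ((q : ℝ) / p) ^ (D.n - i - (D.n - l)) := by positivity
      rw [h4, Dat.lev]
      nlinarith
  have hbig : ∀ g : Gal, (g = 1 ∨ g = σ) → ∀ n ≤ D.n + e,
      (((q : ℝ) / p) ^ (j₁ + e))⁻¹ * ((q : ℝ) / p) ^ n ≤ lp (g (D.lev 0)) := by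
    intro g hg n hn
    refine le_trans ?_ (hlow g hg 0 (Nat.zero_le _))
    rw [inv_mul_le_iff₀ (by positivity), ← pow_add]
    exact pow_le_pow_right₀ hθ.le (by omega)
  have htop' : ∀ g : Gal, g (D'.lev 0) ^ q = g (D.lev 0) ^ q := fun g => by
    rw [← map_pow, ← map_pow]; exact congrArg g htop
  obtain ⟨j, hj, c1⟩ := h₁ D D' L k 1 σ htop hn hn' hL (hk' _ (by omega)) (by omega)
    (Subgroup.one_mem _) hG (hbig _ (Or.inl rfl) _ (by omega)) (hbig _ (Or.inr rfl) _ (by omega))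
  obtain ⟨j', hj', c2⟩ := h₂ D' D L k 1 σ htop.symm hn' hn (HL_comm D D' 0 ▸ hL)
    (hk' _ (by omega)) (by omega) (Subgroup.one_mem _) hG'
    (lp_of_pow_eq hq0 (htop' 1) ▸ hbig _ (Or.inl rfl) _ hn')
    (lp_of_pow_eq hq0 (htop' σ) ▸ hbig _ (Or.inr rfl) _ hn')
  have key : σ (D.lev l) = D.lev l ∧ σ (D'.lev l) = D'.lev l := by
    have hsw : ∀ j ≤ k, ∀ μ : Qb, μ ^ p * b = a → μ ^ q * b = a → σ (D.lev j) = μ * D'.lev j →
        μ * σ (D'.lev j) = D.lev j → σ (D.lev l) = D.lev l ∧ σ (D'.lev l) = D'.lev l := by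
      intro j hj μ m1 m2 m3 m4
      have hμ0 : μ ≠ 0 := by rintro rfl; rw [zero_pow hp0.ne', zero_mul] at m1; exact ha m1.symm
      have hμ : σ μ = μ := by
        have e : ∀ r : ℕ, μ ^ r * b = a → (σ μ / μ) ^ r = 1 := fun r hr => by
          have h1 := congrArg σ hr
          rw [map_mul, map_pow, GK_left hG, GK_right hG, ← hr] at h1
          rw [div_pow, mul_right_cancel₀ hb h1, div_self (pow_ne_zero _ hμ0)]
        exact (div_eq_one_iff_eq hμ0).1 (eq_one_of_coprime hcop (e p m1) (e q m2))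
      have hjB : ∀ g : Gal, (g = 1 ∨ g = σ) → (B : ℝ) * (k + 1) ≤ lp (g (D.lev j)) := by
        intro g hg
        refine le_trans ?_ ((theta_ge hp0 hpq _).trans (hlow g hg j (by omega)))
        rw [le_div_iff₀ (by exact_mod_cast hp0)]
        have : B * (k + 1) * p ≤ D.n - j - j₁ := by
          have : B * (k + 1) * p = p * B * (k + 1) := by ring
          omega
        exact_mod_cast this
      have hq1 : 0 ≤ Real.log q := Real.log_natCast_nonneg q
      have hC1 : 0 ≤ Real.log (2 * CW) := Real.log_nonneg (by linarith)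
      have hk0 : (0 : ℝ) ≤ k := by positivity
      have hB0 : (B : ℝ) ≤ B * (k + 1) := le_mul_of_one_le_right (by positivity) (by linarith)
      have hx := hjB 1 (Or.inl rfl)
      have hy := hjB σ (Or.inr rfl)
      rw [AlgEquiv.one_apply] at hx
      obtain ⟨ζ, z1, -, z2⟩ := hW Qb goodF_Qb a b j D.lev D'.lev hSa.norm_le hSb.norm_le
        (D.fwd_lev (by omega)) (D'.fwd_lev (by omega)) htop (by linarith)
      obtain ⟨ζ', z1', -, z2'⟩ := hW Qb goodF_Qb (σ a) (σ b) j (fun i => σ (D.lev i))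
        (fun i => σ (D'.lev i)) (hSa.2 σ) (hSb.2 σ)
        ((D.fwd_lev (by omega)).map (σ : Qb →+* Qb)) ((D'.fwd_lev (by omega)).map (σ : Qb →+* Qb))
        (htop' σ) (by linarith)
      have n1 : ‖μ‖ = 1 := by
        have : μ ^ (q - p) * (μ ^ p * b) = 1 * (μ ^ p * b) := by
          rw [← mul_assoc, ← pow_add, Nat.sub_add_cancel hpq.le, m2, one_mul, m1]
        exact norm_root (by omega : 0 < q - p) (mul_right_cancel₀ (by rw [m1]; exact ha) this)
      have hodd := swap_odd (C := CW) (x := D.lev j) (x' := D'.lev j) hp0 hpq hcop ha hab m1 m2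
        (z1 j le_rfl) (z1' j le_rfl)
        ((le_mul_of_one_le_right (norm_nonneg _)
          (one_le_pow₀ (one_le_norm (by linarith)))).trans (z2 j le_rfl)) (by
          rw [← m3, ← m4, ← mul_sub, norm_mul, n1, one_mul, m4]
          exact (le_mul_of_one_le_right (norm_nonneg _)
            (one_le_pow₀ (one_le_norm (by linarith)))).trans (z2' j le_rfl)) (by
          rw [norm_eq_exp_lp (by linarith), ← Real.log_lt_iff_lt_exp (by positivity),
            Real.log_mul (by positivity) (by positivity), Real.log_pow, Real.log_pow]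
          have hj' : (j : ℝ) ≤ k := by exact_mod_cast hj
          push_cast
          nlinarith [mul_nonneg hk0 hq1, mul_nonneg hk0 hC1])
      refine ⟨fix_of_sq hp0 hcop hq0 hodd D hG hu (j := j) ?_ (by omega) (hlev _ le_rfl),
        fix_of_sq hp0 hcop hq0 hodd D' hG' hu' (j := j) ?_ (by omega) (hlev' _ le_rfl)⟩
      · rw [m3, map_mul, hμ, m4]
      · have h1 := congrArg σ m4
        rw [map_mul, hμ, m3] at h1
        exact mul_left_cancel₀ hμ0 h1
    simp only [Concl, AlgEquiv.one_apply] at c1 c2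
    rcases c1 with c1 | ⟨μ, m1, m2, m3, m4⟩
    swap
    · exact hsw j hj μ m1 m2 m3 m4
    rcases c2 with c2 | ⟨μ, m1, m2, m3, m4⟩
    · exact ⟨D.fix_lev hp0 hq0 hcop hG hu c1 (by omega),
        D'.fix_lev hp0 hq0 hcop hG' hu' c2 (by omega)⟩
    have hμ0 : μ ≠ 0 := by rintro rfl; rw [zero_pow hp0.ne', zero_mul] at m1; exact hb m1.symm
    refine hsw j' hj' μ⁻¹ ?_ ?_ ?_ ?_
    · rw [← m1, inv_pow]; field_simp
    · rw [← m2, inv_pow]; field_simp
    · rw [← m4]; field_simp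
    · rw [m3]; field_simp
  refine ⟨hG, hu, hu', fun i hi hin => ?_, fun i hi hin => ?_⟩
  · rcases hi.eq_or_lt with rfl | hi
    exacts [key.1, hlev i hi hin]
  · rcases hi.eq_or_lt with rfl | hi
    exacts [key.2, hlev' i hi hin]

end Pool.Agent.MP_09973c_nt.H71
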